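import Mathlib

/-!
Two-terminal graphs whose edges lie in cycles and terminal paths of many lengths, and a composition.
-/

set_option autoImplicit false

namespace Pool.Agent.R4.EP

open SimpleGraph

/-- The edge `e` lies in a cycle of length `L` of `G`. -/
def InCyc {W : Type} (G : SimpleGraph W) (e : Sym2 W) (L : ℕ) : Prop :=
  ∃ (z : W) (c : G.Walk z z), c.IsCycle ∧ c.length = L ∧ e ∈ c.edges

/-- There is a path of length `L` from `a` to `b`. -/
def HasPath {W : Type} (G : SimpleGraph W) (a b : W) (L : ℕ) : Prop :=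
  ∃ p : G.Walk a b, p.IsPath ∧ p.length = L

/-- There is a path of length `L` from `a` to `b` containing the edge `e`. -/
def HasPathE {W : Type} (G : SimpleGraph W) (a b : W) (e : Sym2 W) (L : ℕ) : Prop :=
  ∃ p : G.Walk a b, p.IsPath ∧ p.length = L ∧ e ∈ p.edges

/-- A two-terminal graph with `M + 1` vertices: terminal paths of all lengths from `4` to `M`, and
every edge is in cycles of all lengths up to `t + 5` and in terminal paths of all lengths from `t`. -/
structure Good {W : Type} (G : SimpleGraph W) (x y : W) (M : ℕ) : Prop where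
  ne : x ≠ y
  big : 13 ≤ M
  paths : ∀ L, 4 ≤ L → L ≤ M → HasPath G x y L
  edges : ∀ e ∈ G.edgeSet, ∃ t, t ≤ M ∧ (∀ L, 3 ≤ L → L ≤ t + 5 → InCyc G e L) ∧
    ∀ L, t ≤ L → L ≤ M → HasPathE G x y e L

/-- A pair of disjoint paths `x → u` and `v → y` of total length `r`. -/
def Cross {W : Type} (K : SimpleGraph W) (x y u v : W) (r : ℕ) (S : Set (Sym2 W)) : Prop :=
  ∃ (A : K.Walk x u) (B : K.Walk v y), A.IsPath ∧ B.IsPath ∧ (∀ z ∈ A.support, z ∉ B.support) ∧
    A.length + B.length = r ∧ ∀ e ∈ S, e ∈ A.edges ∨ e ∈ B.edges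

/-- Properties of the core graph. -/
structure CoreOK {W : Type} (K : SimpleGraph W) (x y u v : W) : Prop where
  xy : x ≠ y
  uv : u ≠ v
  paths : ∀ L, 4 ≤ L → L ≤ 18 → HasPath K x y L
  cross : ∀ r, 11 ≤ r → r ≤ 29 → Cross K x y u v r ∅
  pathO : ∀ c, 2 ≤ c → c ≤ 30 → HasPath K v u c
  edges : ∀ e ∈ K.edgeSet, ∃ t r, 10 ≤ r ∧ t ≤ 30 ∧ (∀ L, 3 ≤ L → L ≤ t + 5 → InCyc K e L) ∧
    (∀ L, t ≤ L → L ≤ r + 7 → HasPathE K x y e L) ∧ Cross K x y u v r {e} ∧ Cross K x y u v 29 {e}

section walk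

variable {V : Type} {G : SimpleGraph V}

lemma isPath_append {a b c : V} {p : G.Walk a b} {q : G.Walk b c} (hp : p.IsPath) (hq : q.IsPath)
    (h : ∀ z ∈ p.support, z ∈ q.support → z = b) : (p.append q).IsPath := by
  rw [Walk.isPath_def, Walk.support_append, List.nodup_append']
  refine ⟨hp.support_nodup, hq.support_nodup.tail, ?_⟩
  intro z hz hz'
  have := h z hz (List.mem_of_mem_tail hz')
  subst this
  have h2 := hq.support_nodup
  rw [← Walk.cons_tail_support, List.nodup_cons] at h2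
  exact h2.1 hz'

lemma isCycle_append {a b : V} {p : G.Walk a b} {q : G.Walk b a} (hp : p.IsPath) (hq : q.IsPath)
    (h : ∀ z ∈ p.support, z ∈ q.support → z = a ∨ z = b) (hn : 1 < p.length) :
    (p.append q).IsCycle := by
  refine hp.isCycle_append hq ?_ (Or.inl hn)
  intro z hz hz'
  rcases h z (List.mem_of_mem_tail hz) (List.mem_of_mem_tail hz') with rfl | rfl
  · have h2 := hp.support_nodup
    rw [← Walk.cons_tail_support, List.nodup_cons] at h2
    exact h2.1 hz
  · have h2 := hq.support_nodup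
    rw [← Walk.cons_tail_support, List.nodup_cons] at h2
    exact h2.1 hz'

variable {V' : Type} {G' : SimpleGraph V'}

lemma InCyc.map {e : Sym2 V} {L : ℕ} (h : InCyc G e L) (f : G →g G')
    (hf : Function.Injective f) : InCyc G' (e.map f) L := by
  obtain ⟨z, c, hc, hl, he⟩ := h
  refine ⟨f z, c.map f, (Walk.isCycle_map_iff_of_injective hf).2 hc, by simpa using hl, ?_⟩
  rw [Walk.edges_map]
  exact List.mem_map_of_mem he

end walk

section comp

variable {W I C : Type} {G : SimpleGraph W} {x y : W} {M : ℕ} {K : SimpleGraph C}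
  {cx cy cu cv : C} {G' : SimpleGraph I}

/-- The composition: two copies of `G` in series replace the missing edge `u v` of `K`. -/
structure Glue (G : SimpleGraph W) (x y : W) (K : SimpleGraph C) (cx cy cu cv : C)
    (G' : SimpleGraph I) where
  k : K →g G'
  f : G →g G'
  g : G →g G'
  kinj : Function.Injective k
  finj : Function.Injective f
  ginj : Function.Injective g
  fx : f x = k cu
  fy : f y = g x
  gy : g y = k cv
  kf : ∀ a b, k a = f b → b = x
  kg : ∀ a b, k a = g b → b = y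
  fg : ∀ a b, f a = g b → a = y ∧ b = x
  all : ∀ e ∈ G'.edgeSet, (∃ d ∈ K.edgeSet, e = d.map k) ∨ (∃ d ∈ G.edgeSet, e = d.map f) ∨
    ∃ d ∈ G.edgeSet, e = d.map g

variable (H : Glue G x y K cx cy cu cv G')

include H

/-- The insertion path: `k u → w → k v`, made of a path in each copy. -/
lemma Glue.ins (hG : Good G x y M) {a b : ℕ} (S T : Set (Sym2 W))
    (hp : ∃ p : G.Walk x y, p.IsPath ∧ p.length = a ∧ ∀ e ∈ S, e ∈ p.edges)
    (hq : ∃ q : G.Walk x y, q.IsPath ∧ q.length = b ∧ ∀ e ∈ T, e ∈ q.edges) :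
    ∃ J : G'.Walk (H.k cu) (H.k cv), J.IsPath ∧ J.length = a + b ∧
      (∀ e ∈ S, e.map H.f ∈ J.edges) ∧ (∀ e ∈ T, e.map H.g ∈ J.edges) ∧
      ∀ z c, z ∈ J.support → z = H.k c → c = cu ∨ c = cv := by
  obtain ⟨p, hp, hpl, hpe⟩ := hp
  obtain ⟨q, hq, hql, hqe⟩ := hq
  let P : G'.Walk (H.k cu) (H.g x) := (p.map H.f).copy H.fx H.fy
  let Q : G'.Walk (H.g x) (H.k cv) := (q.map H.g).copy rfl H.gy
  have hP : P.IsPath := by
    simpa [P] using hp.map H.finj
  have hQ : Q.IsPath := by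
    simpa [Q] using hq.map H.ginj
  have hPs : ∀ z, z ∈ P.support → ∃ a ∈ p.support, H.f a = z := by
    intro z hz
    simpa [P] using hz
  have hQs : ∀ z, z ∈ Q.support → ∃ a ∈ q.support, H.g a = z := by
    intro z hz
    simpa [Q] using hz
  refine ⟨P.append Q, isPath_append hP hQ ?_, ?_, ?_, ?_, ?_⟩
  · intro z hz hz'
    obtain ⟨a, -, rfl⟩ := hPs z hz
    obtain ⟨b, -, hb⟩ := hQs _ hz'
    obtain ⟨h1, -⟩ := H.fg a b hb.symm
    rw [h1, H.fy]
  · simp [P, Q, hpl, hql]
  · intro e he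
    simp only [Walk.edges_append, List.mem_append]
    left
    simp only [P, Walk.edges_copy, Walk.edges_map]
    exact List.mem_map_of_mem (hpe e he)
  · intro e he
    simp only [Walk.edges_append, List.mem_append]
    right
    simp only [Q, Walk.edges_copy, Walk.edges_map]
    exact List.mem_map_of_mem (hqe e he)
  · intro z c hz hc
    rw [Walk.mem_support_append_iff] at hz
    rcases hz with hz | hz
    · obtain ⟨a, -, ha⟩ := hPs z hz
      have := H.kf c a (by rw [← hc, ha])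
      left
      apply H.kinj
      rw [← hc, ← ha, this, H.fx]
    · obtain ⟨a, -, ha⟩ := hQs z hz
      have := H.kg c a (by rw [← hc, ha])
      right
      apply H.kinj
      rw [← hc, ← ha, this, H.gy]

/-- A terminal path crossing the insertion. -/
lemma Glue.cross {r s : ℕ} {S : Set (Sym2 C)} (hX : Cross K cx cy cu cv r S)
    (J : G'.Walk (H.k cu) (H.k cv)) (hJ : J.IsPath) (hl : J.length = s)
    (hs : ∀ z c, z ∈ J.support → z = H.k c → c = cu ∨ c = cv) :
    ∃ P : G'.Walk (H.k cx) (H.k cy), P.IsPath ∧ P.length = r + s ∧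
      (∀ e ∈ S, e.map H.k ∈ P.edges) ∧ ∀ e ∈ J.edges, e ∈ P.edges := by
  obtain ⟨A, B, hA, hB, hAB, hlen, he⟩ := hX
  have hA' : (A.map H.k).IsPath := hA.map H.kinj
  have hB' : (B.map H.k).IsPath := hB.map H.kinj
  have h1 : ((A.map H.k).append J).IsPath := by
    refine isPath_append hA' hJ ?_
    intro z hz hz'
    rw [Walk.support_map, List.mem_map] at hz
    obtain ⟨a, ha, rfl⟩ := hz
    rcases hs _ a hz' rfl with h | h
    · rw [h]
    · exfalso
      rw [h] at ha
      exact hAB _ ha B.start_mem_support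
  refine ⟨((A.map H.k).append J).append (B.map H.k), isPath_append h1 hB' ?_, ?_, ?_, ?_⟩
  · intro z hz hz'
    rw [Walk.support_map, List.mem_map] at hz'
    obtain ⟨b, hb, rfl⟩ := hz'
    rw [Walk.mem_support_append_iff] at hz
    rcases hz with hz | hz
    · rw [Walk.support_map, List.mem_map] at hz
      obtain ⟨a, ha, hab⟩ := hz
      have := H.kinj hab
      subst this
      exact absurd hb (hAB _ ha)
    · rcases hs _ b hz rfl with h | h
      · exfalso
        rw [h] at hb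
        exact hAB _ A.end_mem_support hb
      · rw [h]
  · simp only [Walk.length_append, Walk.length_map, hl]
    omega
  · intro e heS
    simp only [Walk.edges_append, Walk.edges_map, List.mem_append]
    rcases he e heS with h | h
    · exact Or.inl (Or.inl (List.mem_map_of_mem h))
    · exact Or.inr (List.mem_map_of_mem h)
  · intro e heJ
    simp only [Walk.edges_append, List.mem_append]
    exact Or.inl (Or.inr heJ)

lemma Glue.good (hG : Good G x y M) (hK : CoreOK K cx cy cu cv) :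
    Good G' (H.k cx) (H.k cy) (2 * M + 29) := by
  have hM := hG.big
  -- insertion paths of any length
  have hins : ∀ s, 8 ≤ s → s ≤ 2 * M → ∃ J : G'.Walk (H.k cu) (H.k cv), J.IsPath ∧ J.length = s ∧
      ∀ z c, z ∈ J.support → z = H.k c → c = cu ∨ c = cv := by
    intro s h1 h2
    obtain ⟨p, hp, hpl⟩ := hG.paths (max 4 (s - M)) (by omega) (by omega)
    obtain ⟨q, hq, hql⟩ := hG.paths (s - max 4 (s - M)) (by omega) (by omega)
    obtain ⟨J, h3, h4, -, -, h5⟩ := H.ins hG ∅ ∅ ⟨p, hp, hpl, by simp⟩ ⟨q, hq, hql, by simp⟩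
    exact ⟨J, h3, by omega, h5⟩
  -- paths in a copy through an edge
  have hO : ∀ (e : Sym2 W) (t : ℕ), t ≤ M → (∀ L, t ≤ L → L ≤ M → HasPathE G x y e L) →
      ∀ s, t + 4 ≤ s → s ≤ 2 * M →
      (∃ J : G'.Walk (H.k cu) (H.k cv), J.IsPath ∧ J.length = s ∧ e.map H.f ∈ J.edges ∧
        ∀ z c, z ∈ J.support → z = H.k c → c = cu ∨ c = cv) ∧
      (∃ J : G'.Walk (H.k cu) (H.k cv), J.IsPath ∧ J.length = s ∧ e.map H.g ∈ J.edges ∧
        ∀ z c, z ∈ J.support → z = H.k c → c = cu ∨ c = cv) := by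
    intro e t ht hE s h1 h2
    obtain ⟨p, hp, hpl, hpe⟩ := hE (max t (s - M)) (by omega) (by omega)
    obtain ⟨q, hq, hql⟩ := hG.paths (s - max t (s - M)) (by omega) (by omega)
    constructor
    · obtain ⟨J, h3, h4, h6, -, h5⟩ := H.ins hG {e} ∅ ⟨p, hp, hpl, by simpa using hpe⟩
        ⟨q, hq, hql, by simp⟩
      exact ⟨J, h3, by omega, h6 e rfl, h5⟩
    · obtain ⟨J, h3, h4, -, h6, h5⟩ := H.ins hG ∅ {e} ⟨q, hq, hql, by simp⟩
        ⟨p, hp, hpl, by simpa using hpe⟩
      exact ⟨J, h3, by omega, h6 e rfl, h5⟩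
  -- closing up with a path of the core
  have hclose : ∀ (d : Sym2 I) (s : ℕ), 2 ≤ s → (∃ J : G'.Walk (H.k cu) (H.k cv), J.IsPath ∧
      J.length = s ∧ d ∈ J.edges ∧ ∀ z c, z ∈ J.support → z = H.k c → c = cu ∨ c = cv) →
      ∀ c, 2 ≤ c → c ≤ 30 → InCyc G' d (s + c) := by
    rintro d s hs ⟨J, h1, h2, h3, h4⟩ c hc1 hc2
    obtain ⟨q, hq, hql⟩ := hK.pathO c hc1 hc2
    have hq' : (q.map H.k).IsPath := hq.map H.kinj
    refine ⟨_, J.append (q.map H.k), isCycle_append h1 hq' ?_ (by omega), ?_, ?_⟩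
    · intro z hz hz'
      rw [Walk.support_map, List.mem_map] at hz'
      obtain ⟨a, -, rfl⟩ := hz'
      rcases h4 _ a hz rfl with h | h
      · exact Or.inl (by rw [h])
      · exact Or.inr (by rw [h])
    · rw [Walk.length_append, Walk.length_map, h2, hql]
    · rw [Walk.edges_append, List.mem_append]
      exact Or.inl h3
  -- edges of a copy
  have hcopy : ∀ (φ : G →g G') (d : Sym2 W), Function.Injective φ → d ∈ G.edgeSet →
      (∀ t : ℕ, t ≤ M → (∀ L, t ≤ L → L ≤ M → HasPathE G x y d L) →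
        ∀ s, t + 4 ≤ s → s ≤ 2 * M →
        ∃ J : G'.Walk (H.k cu) (H.k cv), J.IsPath ∧ J.length = s ∧ d.map φ ∈ J.edges ∧
        ∀ z c, z ∈ J.support → z = H.k c → c = cu ∨ c = cv) →
      ∃ t, t ≤ 2 * M + 29 ∧ (∀ L, 3 ≤ L → L ≤ t + 5 → InCyc G' (d.map φ) L) ∧
        ∀ L, t ≤ L → L ≤ 2 * M + 29 → HasPathE G' (H.k cx) (H.k cy) (d.map φ) L := by
    intro φ d hφ hd hJ
    obtain ⟨t, ht, hc, hpE⟩ := hG.edges d hd
    have hJ' := hJ t ht hpE
    refine ⟨t + 15, by omega, ?_, ?_⟩
    · intro L h3 h4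
      by_cases hL : L ≤ t + 5
      · exact (hc L h3 hL).map φ hφ
      · have h5 : L - (t + 4) ≤ 30 := by omega
        have h6 := hclose (d.map φ) (t + 4) (by omega) (hJ' (t + 4) le_rfl (by omega))
          (L - (t + 4)) (by omega) h5
        have h7 : t + 4 + (L - (t + 4)) = L := by omega
        rwa [h7] at h6
    · intro L h3 h4
      obtain ⟨J, h5, h6, h7, h8⟩ := hJ' (min (L - 11) (2 * M)) (by omega) (by omega)
      obtain ⟨P, h9, h10, -, h11⟩ := H.cross (hK.cross (L - min (L - 11) (2 * M)) (by omega)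
        (by omega)) J h5 h6 h8
      exact ⟨P, h9, by omega, h11 _ h7⟩
  refine ⟨fun h => hK.xy (H.kinj h), by omega, ?_, ?_⟩
  · intro L h1 h2
    by_cases hL : L ≤ 18
    · obtain ⟨p, hp, hpl⟩ := hK.paths L h1 hL
      exact ⟨p.map H.k, hp.map H.kinj, by simpa using hpl⟩
    · obtain ⟨J, h3, h4, h5⟩ := hins (min (L - 11) (2 * M)) (by omega) (by omega)
      obtain ⟨P, h9, h10, -, -⟩ := H.cross (hK.cross (L - min (L - 11) (2 * M)) (by omega)
        (by omega)) J h3 h4 h5
      exact ⟨P, h9, by omega⟩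
  · intro e he
    rcases H.all e he with ⟨d, hd, rfl⟩ | ⟨d, hd, rfl⟩ | ⟨d, hd, rfl⟩
    · obtain ⟨t, r, hr, ht, hc, hp, hx1, hx2⟩ := hK.edges d hd
      refine ⟨t, by omega, fun L h1 h2 => (hc L h1 h2).map H.k H.kinj, ?_⟩
      intro L h1 h2
      by_cases hL : L ≤ r + 7
      · obtain ⟨p, hp, hpl, hpe⟩ := hp L h1 hL
        refine ⟨p.map H.k, hp.map H.kinj, by simpa using hpl, ?_⟩
        rw [Walk.edges_map]
        exact List.mem_map_of_mem hpe
      · by_cases hL2 : L ≤ r + 2 * M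
        · obtain ⟨J, h3, h4, h5⟩ := hins (L - r) (by omega) (by omega)
          obtain ⟨P, h9, h10, h11, -⟩ := H.cross hx1 J h3 h4 h5
          exact ⟨P, h9, by omega, h11 d rfl⟩
        · obtain ⟨J, h3, h4, h5⟩ := hins (L - 29) (by omega) (by omega)
          obtain ⟨P, h9, h10, h11, -⟩ := H.cross hx2 J h3 h4 h5
          exact ⟨P, h9, by omega, h11 d rfl⟩
    · exact hcopy H.f d H.finj hd (fun t ht hE s h1 h2 => (hO d t ht hE s h1 h2).1)
    · exact hcopy H.g d H.ginj hd (fun t ht hE s h1 h2 => (hO d t ht hE s h1 h2).2)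

end comp

end Pool.Agent.R4.EP
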