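import Mathlib
import Pool.Agent.R4.EP.Comp

/-!
The composition as an explicit graph, the number of its edges, and the final closing.
-/

set_option autoImplicit false

namespace Pool.Agent.R4.EP

open SimpleGraph

/-- Every edge of `G` lies in a cycle of every length from `3` to the number of vertices. -/
def EPan {W : Type} (G : SimpleGraph W) : Prop :=
  ∀ e ∈ G.edgeSet, ∀ L, 3 ≤ L → L ≤ Nat.card W → InCyc G e L

lemma card_int {W : Type} [Finite W] {x y : W} (h : x ≠ y) :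
    Nat.card {a : W // a ≠ x ∧ a ≠ y} + 2 = Nat.card W := by
  have h1 : Nat.card {a : W // a ≠ x ∧ a ≠ y} = ({x, y}ᶜ : Set W).ncard := by
    rw [← Nat.card_coe_set_eq]
    apply Nat.card_congr
    exact Equiv.subtypeEquivRight (by intro a; simp)
  have h2 := Set.ncard_add_ncard_compl ({x, y} : Set W)
  rw [Set.ncard_pair h] at h2
  omega

lemma ncard_edge_map {V W : Type} [Finite V] (f : V ↪ W) (G : SimpleGraph V) :
    (G.map f).edgeSet.ncard ≤ G.edgeSet.ncard := by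
  rw [SimpleGraph.edgeSet_map]
  exact Set.ncard_image_le (Set.toFinite _)

/-- The map to the image graph. -/
def toMap {V W : Type} (f : V ↪ W) (G : SimpleGraph V) (G' : SimpleGraph W) (h : G.map f ≤ G') :
    G →g G' :=
  ⟨f, fun {a b} hab => h ((SimpleGraph.map_adj f G _ _).2 ⟨a, b, hab, rfl, rfl⟩)⟩

section glue

variable {W C : Type} (G : SimpleGraph W) {x y : W} (hxy : x ≠ y) (K : SimpleGraph C)
  {cx cy cu cv : C} (huv : cu ≠ cv)

/-- Vertices of the composition. -/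
abbrev GV (W C : Type) (x y : W) : Type :=
  (C ⊕ Unit) ⊕ ({a : W // a ≠ x ∧ a ≠ y} ⊕ {a : W // a ≠ x ∧ a ≠ y})

open Classical in
/-- Embedding of the first copy, as a function. -/
noncomputable def gf (x y : W) (cu : C) (a : W) : GV W C x y :=
  if h : a = x then Sum.inl (Sum.inl cu) else
    if h' : a = y then Sum.inl (Sum.inr ()) else Sum.inr (Sum.inl ⟨a, h, h'⟩)

open Classical in
/-- Embedding of the second copy, as a function. -/
noncomputable def gg (x y : W) (cv : C) (a : W) : GV W C x y :=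
  if h : a = x then Sum.inl (Sum.inr ()) else
    if h' : a = y then Sum.inl (Sum.inl cv) else Sum.inr (Sum.inr ⟨a, h, h'⟩)

lemma gf_inj (x y : W) (cu : C) : Function.Injective (gf x y cu) := by
  intro a b h
  unfold gf at h
  split_ifs at h <;> simp_all

lemma gg_inj (x y : W) (cv : C) : Function.Injective (gg x y cv) := by
  intro a b h
  unfold gg at h
  split_ifs at h <;> simp_all

/-- Embedding of the core. -/
def eK (C : Type) (x y : W) : C ↪ GV W C x y :=
  ⟨fun c => Sum.inl (Sum.inl c), fun a b h => by simpa using h⟩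

/-- Embedding of the first copy. -/
noncomputable def eF (x y : W) (cu : C) : W ↪ GV W C x y := ⟨gf x y cu, gf_inj x y cu⟩

/-- Embedding of the second copy. -/
noncomputable def eG (x y : W) (cv : C) : W ↪ GV W C x y := ⟨gg x y cv, gg_inj x y cv⟩

/-- The composition graph. -/
noncomputable def gG (x y : W) (cu cv : C) : SimpleGraph (GV W C x y) :=
  K.map (eK C x y) ⊔ (G.map (eF x y cu) ⊔ G.map (eG x y cv))

include hxy huv in
lemma glue_nonempty : Nonempty (Glue G x y K cx cy cu cv (gG G K x y cu cv)) := by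
  refine ⟨⟨toMap (eK C x y) K _ le_sup_left,
    toMap (eF x y cu) G _ (le_sup_left.trans le_sup_right),
    toMap (eG x y cv) G _ (le_sup_right.trans le_sup_right), (eK C x y).injective,
    (eF x y cu).injective, (eG x y cv).injective, ?_, ?_, ?_, ?_, ?_, ?_, ?_⟩⟩
  · show gf x y cu x = Sum.inl (Sum.inl cu)
    simp [gf]
  · show gf x y cu y = gg x y cv x
    simp [gf, gg, hxy.symm]
  · show gg x y cv y = Sum.inl (Sum.inl cv)
    simp [gg, hxy.symm]
  · intro a b h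
    change (Sum.inl (Sum.inl a) : GV W C x y) = gf x y cu b at h
    unfold gf at h
    split_ifs at h <;> simp_all
  · intro a b h
    change (Sum.inl (Sum.inl a) : GV W C x y) = gg x y cv b at h
    unfold gg at h
    split_ifs at h <;> simp_all
  · intro a b h
    change gf x y cu a = gg x y cv b at h
    unfold gf gg at h
    split_ifs at h <;> simp_all
  · intro e he
    rw [gG, SimpleGraph.edgeSet_sup, SimpleGraph.edgeSet_sup, SimpleGraph.edgeSet_map,
      SimpleGraph.edgeSet_map, SimpleGraph.edgeSet_map] at he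
    rcases he with ⟨d, hd, rfl⟩ | ⟨d, hd, rfl⟩ | ⟨d, hd, rfl⟩
    · exact Or.inl ⟨d, hd, rfl⟩
    · exact Or.inr (Or.inl ⟨d, hd, rfl⟩)
    · exact Or.inr (Or.inr ⟨d, hd, rfl⟩)

lemma gG_ncard [Finite W] [Finite C] (x y : W) (cu cv : C) :
    (gG G K x y cu cv).edgeSet.ncard ≤ K.edgeSet.ncard + 2 * G.edgeSet.ncard := by
  have h1 := ncard_edge_map (eK C x y) K
  have h2 := ncard_edge_map (eF x y cu) G
  have h3 := ncard_edge_map (eG x y cv) G
  have h4 := Set.ncard_union_le (K.map (eK C x y)).edgeSet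
    ((G.map (eF x y cu)).edgeSet ∪ (G.map (eG x y cv)).edgeSet)
  have h5 := Set.ncard_union_le (G.map (eF x y cu)).edgeSet (G.map (eG x y cv)).edgeSet
  rw [gG, SimpleGraph.edgeSet_sup, SimpleGraph.edgeSet_sup]
  omega

end glue

/-- There is a two-terminal graph with parameter `M` and at most `E` edges. -/
def Ex (M E : ℕ) : Prop :=
  ∃ (W : Type) (_ : Finite W) (G : SimpleGraph W) (x y : W), Good G x y M ∧ Nat.card W = M + 1 ∧
    G.edgeSet.ncard ≤ E

lemma Ex.step {C : Type} [Finite C] {K : SimpleGraph C} {cx cy cu cv : C}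
    (hK : CoreOK K cx cy cu cv) (hC : Nat.card C = 31) (hE : K.edgeSet.ncard ≤ 58) {M E : ℕ}
    (h : Ex M E) : Ex (2 * M + 29) (2 * E + 58) := by
  obtain ⟨W, _, G, x, y, hG, hc, he⟩ := h
  obtain ⟨H⟩ := glue_nonempty (cx := cx) (cy := cy) (cu := cu) (cv := cv) G hG.ne K hK.uv
  refine ⟨GV W C x y, inferInstance, gG G K x y cu cv, _, _, H.good hG hK, ?_, ?_⟩
  · have := card_int hG.ne
    rw [Nat.card_sum, Nat.card_sum, Nat.card_sum, hC, Nat.card_eq_fintype_card, Fintype.card_unit]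
    omega
  · have := gG_ncard G K x y cu cv
    omega

/-- Two two-terminal graphs glued at their terminals. -/
structure Glue2 {W₁ W₂ I : Type} (G₁ : SimpleGraph W₁) (G₂ : SimpleGraph W₂) (x₁ y₁ : W₁)
    (x₂ y₂ : W₂) (G' : SimpleGraph I) where
  f : G₁ →g G'
  g : G₂ →g G'
  finj : Function.Injective f
  ginj : Function.Injective g
  gx : g x₂ = f x₁
  gy : g y₂ = f y₁
  fg : ∀ a b, f a = g b → a = x₁ ∨ a = y₁
  all : ∀ e ∈ G'.edgeSet, (∃ d ∈ G₁.edgeSet, e = d.map f) ∨ ∃ d ∈ G₂.edgeSet, e = d.map g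

section close

variable {W₁ W₂ I : Type} {G₁ : SimpleGraph W₁} {G₂ : SimpleGraph W₂} {x₁ y₁ : W₁} {x₂ y₂ : W₂}
  {G' : SimpleGraph I}

lemma Glue2.key (H : Glue2 G₁ G₂ x₁ y₁ x₂ y₂ G') (p : G₁.Walk x₁ y₁) (q : G₂.Walk x₂ y₂)
    (hp : p.IsPath) (hq : q.IsPath) (hl : 2 ≤ p.length ∨ 2 ≤ q.length) (d : Sym2 I)
    (hd : d ∈ p.edges.map (Sym2.map H.f) ∨ d ∈ q.edges.map (Sym2.map H.g)) :
    InCyc G' d (p.length + q.length) := by
  let P : G'.Walk (H.f x₁) (H.f y₁) := p.map H.f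
  let Q : G'.Walk (H.f y₁) (H.f x₁) := ((q.map H.g).reverse).copy H.gy H.gx
  have hP : P.IsPath := hp.map H.finj
  have hQ : Q.IsPath := by
    have := (hq.map H.ginj).reverse
    simpa only [Q, Walk.isPath_copy] using this
  have hint : ∀ z ∈ P.support, z ∈ Q.support → z = H.f x₁ ∨ z = H.f y₁ := by
    intro z hz hz'
    have h1 : ∃ a ∈ p.support, H.f a = z := by simpa [P] using hz
    have h2 : ∃ a ∈ q.support, H.g a = z := by simpa [Q] using hz'
    obtain ⟨a, -, rfl⟩ := h1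
    obtain ⟨b, -, hb⟩ := h2
    rcases H.fg a b hb.symm with rfl | rfl
    · exact Or.inl rfl
    · exact Or.inr rfl
  have hPl : P.length = p.length := by simp [P]
  have hQl : Q.length = q.length := by simp [Q]
  have hcyc : (P.append Q).IsCycle := by
    refine hP.isCycle_append hQ ?_ (by omega)
    intro z hz hz'
    rcases hint z (List.mem_of_mem_tail hz) (List.mem_of_mem_tail hz') with rfl | rfl
    · have h2 := hP.support_nodup
      rw [← Walk.cons_tail_support, List.nodup_cons] at h2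
      exact h2.1 hz
    · have h2 := hQ.support_nodup
      rw [← Walk.cons_tail_support, List.nodup_cons] at h2
      exact h2.1 hz'
  refine ⟨_, P.append Q, hcyc, by rw [Walk.length_append, hPl, hQl], ?_⟩
  rw [Walk.edges_append, List.mem_append]
  rcases hd with hd | hd
  · left
    simpa [P] using hd
  · right
    simpa [Q] using hd

lemma Glue2.epan (H : Glue2 G₁ G₂ x₁ y₁ x₂ y₂ G') {M₁ M₂ : ℕ} (h₁ : Good G₁ x₁ y₁ M₁)
    (h₂ : Good G₂ x₂ y₂ M₂) : ∀ e ∈ G'.edgeSet, ∀ L, 3 ≤ L → L ≤ M₁ + M₂ → InCyc G' e L := by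
  intro e he L h3 hL
  have hM₁ := h₁.big
  have hM₂ := h₂.big
  rcases H.all e he with ⟨d, hd, rfl⟩ | ⟨d, hd, rfl⟩
  · obtain ⟨t, ht, hc, hp⟩ := h₁.edges d hd
    by_cases hLt : L ≤ t + 5
    · exact (hc L h3 hLt).map H.f H.finj
    · obtain ⟨p, hp1, hp2, hp3⟩ := hp (max t (L - M₂)) (by omega) (by omega)
      obtain ⟨q, hq1, hq2⟩ := h₂.paths (L - max t (L - M₂)) (by omega) (by omega)
      have := H.key p q hp1 hq1 (Or.inr (by omega)) (d.map H.f)
        (Or.inl (List.mem_map_of_mem hp3))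
      have hLL : p.length + q.length = L := by omega
      rw [hLL] at this
      exact this
  · obtain ⟨t, ht, hc, hp⟩ := h₂.edges d hd
    by_cases hLt : L ≤ t + 5
    · exact (hc L h3 hLt).map H.g H.ginj
    · obtain ⟨q, hq1, hq2, hq3⟩ := hp (max t (L - M₁)) (by omega) (by omega)
      obtain ⟨p, hp1, hp2⟩ := h₁.paths (L - max t (L - M₁)) (by omega) (by omega)
      have := H.key p q hp1 hq1 (Or.inl (by omega)) (d.map H.g)
        (Or.inr (List.mem_map_of_mem hq3))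
      have hLL : p.length + q.length = L := by omega
      rw [hLL] at this
      exact this

/-- Vertices of the closed graph. -/
abbrev CV (W₁ W₂ : Type) (x₂ y₂ : W₂) : Type := W₁ ⊕ {a : W₂ // a ≠ x₂ ∧ a ≠ y₂}

open Classical in
/-- Embedding of the second graph in the closed graph. -/
noncomputable def cg (x₁ y₁ : W₁) (x₂ y₂ : W₂) (a : W₂) : CV W₁ W₂ x₂ y₂ :=
  if h : a = x₂ then Sum.inl x₁ else if h' : a = y₂ then Sum.inl y₁ else Sum.inr ⟨a, h, h'⟩

lemma cg_inj (h : x₁ ≠ y₁) : Function.Injective (cg x₁ y₁ x₂ y₂) := by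
  intro a b hab
  unfold cg at hab
  split_ifs at hab <;> simp_all

/-- Embedding of the first graph in the closed graph. -/
def cE₁ (W₁ W₂ : Type) (x₂ y₂ : W₂) : W₁ ↪ CV W₁ W₂ x₂ y₂ := ⟨Sum.inl, Sum.inl_injective⟩

/-- Embedding of the second graph in the closed graph. -/
noncomputable def cE₂ (x₂ y₂ : W₂) (h : x₁ ≠ y₁) : W₂ ↪ CV W₁ W₂ x₂ y₂ :=
  ⟨cg x₁ y₁ x₂ y₂, cg_inj h⟩

/-- The two graphs glued at their terminals. -/
noncomputable def cG (G₁ : SimpleGraph W₁) (G₂ : SimpleGraph W₂) (x₂ y₂ : W₂)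
    (h : x₁ ≠ y₁) : SimpleGraph (CV W₁ W₂ x₂ y₂) :=
  G₁.map (cE₁ W₁ W₂ x₂ y₂) ⊔ G₂.map (cE₂ x₂ y₂ h)

lemma glue2_nonempty (h₁ : x₁ ≠ y₁) (h₂ : x₂ ≠ y₂) :
    Nonempty (Glue2 G₁ G₂ x₁ y₁ x₂ y₂ (cG G₁ G₂ x₂ y₂ h₁)) := by
  refine ⟨⟨toMap (cE₁ W₁ W₂ x₂ y₂) G₁ _ le_sup_left, toMap (cE₂ x₂ y₂ h₁) G₂ _ le_sup_right,
    (cE₁ W₁ W₂ x₂ y₂).injective, (cE₂ x₂ y₂ h₁).injective, ?_, ?_, ?_, ?_⟩⟩
  · show cg x₁ y₁ x₂ y₂ x₂ = Sum.inl x₁
    simp [cg]
  · show cg x₁ y₁ x₂ y₂ y₂ = Sum.inl y₁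
    simp [cg, h₂.symm]
  · intro a b h
    change (Sum.inl a : CV W₁ W₂ x₂ y₂) = cg x₁ y₁ x₂ y₂ b at h
    unfold cg at h
    split_ifs at h <;> simp_all
  · intro e he
    rw [cG, SimpleGraph.edgeSet_sup, SimpleGraph.edgeSet_map, SimpleGraph.edgeSet_map] at he
    rcases he with ⟨d, hd, rfl⟩ | ⟨d, hd, rfl⟩
    · exact Or.inl ⟨d, hd, rfl⟩
    · exact Or.inr ⟨d, hd, rfl⟩

end close

/-- From a two-terminal graph with parameter `M`, an edge-pancyclic graph on `2 M` vertices. -/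
lemma Ex.final {M E : ℕ} (h : Ex M E) : ∃ G : SimpleGraph (Fin (2 * M)),
    G.edgeSet.Nonempty ∧ (∀ e ∈ G.edgeSet, ∀ L, 3 ≤ L → L ≤ 2 * M →
      ∃ (z : Fin (2 * M)) (c : G.Walk z z), c.IsCycle ∧ c.length = L ∧ e ∈ c.edges) ∧
    G.edgeSet.ncard ≤ 2 * E := by
  obtain ⟨W, _, G, x, y, hG, hc, he⟩ := h
  obtain ⟨H⟩ := glue2_nonempty (G₁ := G) (G₂ := G) hG.ne hG.ne
  have h1 := H.epan hG hG
  have hcard : Nat.card (CV W W x y) = 2 * M := by
    have := card_int hG.ne
    rw [Nat.card_sum]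
    omega
  obtain ⟨φ⟩ : Nonempty (CV W W x y ≃ Fin (2 * M)) :=
    ⟨Finite.equivFinOfCardEq hcard⟩
  generalize hG₀ : cG G G x y hG.ne = G₀ at H h1
  have hne : G₀.edgeSet.Nonempty := by
    have hM := hG.big
    obtain ⟨p, hp1, hp2⟩ := hG.paths 4 le_rfl (by omega)
    have h0 : 0 < p.edges.length := by rw [Walk.length_edges]; omega
    obtain ⟨d, hd⟩ := List.exists_mem_of_length_pos h0
    exact ⟨d.map H.f, H.f.map_mem_edgeSet (p.edges_subset_edgeSet hd)⟩
  have hnc : G₀.edgeSet.ncard ≤ 2 * E := by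
    rw [← hG₀, cG, SimpleGraph.edgeSet_sup]
    have h2 := ncard_edge_map (cE₁ W W x y) G
    have h3 := ncard_edge_map (cE₂ (x₁ := x) (y₁ := y) x y hG.ne) G
    have h4 := Set.ncard_union_le (G.map (cE₁ W W x y)).edgeSet
      (G.map (cE₂ (x₁ := x) (y₁ := y) x y hG.ne)).edgeSet
    omega
  refine ⟨G₀.map φ.toEmbedding, ?_, ?_, ?_⟩
  · rw [SimpleGraph.edgeSet_map]
    exact hne.image _
  · intro e hE L h5 h6
    rw [SimpleGraph.edgeSet_map] at hE
    obtain ⟨d, hd, rfl⟩ := hE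
    exact (h1 d hd L h5 (by omega)).map (toMap φ.toEmbedding G₀ _ le_rfl) φ.injective
  · exact (ncard_edge_map _ _).trans hnc

end Pool.Agent.R4.EP
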