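import Mathlib

/-!
Boolean checks for paths given by lists of numbers, and their soundness.
-/

set_option autoImplicit false

namespace Pool.Agent.R4.EP

open SimpleGraph

/-- Decode a number in base 32 (digit `a + 1` for the vertex `a`). -/
def dec : ℕ → ℕ → List ℕ
  | 0, _ => []
  | f + 1, n => if n = 0 then [] else (n % 32 - 1) :: dec f (n / 32)

/-- Consecutive entries are adjacent. -/
def chn (adj : ℕ → ℕ → Bool) : List ℕ → Bool
  | a :: b :: t => adj a b && chn adj (b :: t)
  | _ => true

/-- No repetition. -/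
def nod : List ℕ → Bool
  | [] => true
  | a :: t => !(t.any (fun b => b == a)) && nod t

/-- `c, d` are consecutive in the list, in some order. -/
def hasE (c d : ℕ) : List ℕ → Bool
  | a :: b :: t => (a == c && b == d) || (a == d && b == c) || hasE c d (b :: t)
  | _ => false

/-- The graph on `Fin n` with the given adjacency table. -/
def gr (n : ℕ) (adj : ℕ → ℕ → Bool) : SimpleGraph (Fin n) :=
  SimpleGraph.fromRel (fun a b => adj a.val b.val = true)

/-- All entries are less than `n`. -/
def lt_ (n : ℕ) (l : List ℕ) : Bool := l.all (fun a => Nat.blt a n)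

/-- The list is a path of length `len` from `a` to `b`. -/
def isP (adj : ℕ → ℕ → Bool) (n a b len : ℕ) (l : List ℕ) : Bool :=
  Nat.beq l.length (len + 1) && Nat.beq (l.headD n) a && Nat.beq (l.getLastD n) b &&
    chn adj l && nod l && lt_ n l

lemma nod_iff (l : List ℕ) : nod l = true ↔ l.Nodup := by
  induction l with
  | nil => simp [nod]
  | cons a t ih =>
    simp only [nod, Bool.and_eq_true, Bool.not_eq_true', List.nodup_cons, ih]
    refine and_congr_left fun _ => ?_
    rw [← Bool.not_eq_true, List.any_eq_true]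
    simp

variable {n : ℕ} [NeZero n]

lemma walk_of_list (adj : ℕ → ℕ → Bool) (l : List ℕ) (a : ℕ) :
    chn adj (a :: l) = true → (a :: l).Nodup → (∀ c ∈ (a :: l), c < n) →
    ∃ p : (gr n adj).Walk (Fin.ofNat n a) (Fin.ofNat n ((a :: l).getLastD n)),
      p.support = (a :: l).map (Fin.ofNat n) ∧
      ∀ c d, hasE c d (a :: l) = true → s(Fin.ofNat n c, Fin.ofNat n d) ∈ p.edges := by
  induction l generalizing a with
  | nil =>
    intro _ _ _
    exact ⟨Walk.nil, rfl, by simp [hasE]⟩
  | cons b t ih =>
    intro h1 h2 h3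
    simp only [chn, Bool.and_eq_true] at h1
    obtain ⟨p, hp, he⟩ := ih b h1.2 (List.nodup_cons.1 h2).2 (fun c hc => h3 c (by simp [hc]))
    have hadj : (gr n adj).Adj (Fin.ofNat n a) (Fin.ofNat n b) := by
      have ha : a < n := h3 a (by simp)
      have hb : b < n := h3 b (by simp)
      have hab : a ≠ b := by
        intro h
        subst h
        simp at h2
      rw [gr, SimpleGraph.fromRel_adj]
      refine ⟨?_, Or.inl ?_⟩
      · intro h
        have := congrArg Fin.val h
        simp only [Fin.ofNat, Nat.mod_eq_of_lt ha, Nat.mod_eq_of_lt hb] at this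
        exact hab this
      · simp only [Fin.ofNat, Nat.mod_eq_of_lt ha, Nat.mod_eq_of_lt hb]
        exact h1.1
    have hl : (a :: b :: t).getLastD n = (b :: t).getLastD n := by simp
    refine ⟨(Walk.cons hadj p).copy rfl (by rw [hl]), ?_, ?_⟩
    · simp [hp]
    · intro c d hcd
      simp only [Walk.edges_copy, Walk.edges_cons, List.mem_cons]
      simp only [hasE, Bool.or_eq_true, Bool.and_eq_true, beq_iff_eq] at hcd
      rcases hcd with (⟨rfl, rfl⟩ | ⟨rfl, rfl⟩) | h
      · exact Or.inl rfl
      · exact Or.inl Sym2.eq_swap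
      · exact Or.inr (he c d h)

lemma isP_sound {adj : ℕ → ℕ → Bool} {a b len : ℕ} {l : List ℕ} (h : isP adj n a b len l = true) :
    ∃ p : (gr n adj).Walk (Fin.ofNat n a) (Fin.ofNat n b), p.IsPath ∧ p.length = len ∧
      p.support = l.map (Fin.ofNat n) ∧
      ∀ c d, hasE c d l = true → s(Fin.ofNat n c, Fin.ofNat n d) ∈ p.edges := by
  simp only [isP, Bool.and_eq_true] at h
  obtain ⟨⟨⟨⟨⟨h1, h2⟩, h3⟩, h4⟩, h5⟩, h6⟩ := h
  have h1' : l.length = len + 1 := Nat.eq_of_beq_eq_true h1
  have h2' : l.headD n = a := Nat.eq_of_beq_eq_true h2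
  have h3' : l.getLastD n = b := Nat.eq_of_beq_eq_true h3
  rw [nod_iff] at h5
  have h6' : ∀ c ∈ l, c < n := by
    intro c hc
    have := (List.all_eq_true.1 h6) c hc
    simpa [Nat.blt_eq] using this
  rcases l with _ | ⟨c, t⟩
  · simp at h1'
  · simp only [List.headD_cons] at h2'
    subst h2'
    obtain ⟨p, hp, he⟩ := walk_of_list adj t c h4 h5 h6'
    refine ⟨p.copy rfl (by rw [h3']), ?_, ?_, ?_, ?_⟩
    · rw [Walk.isPath_def, Walk.support_copy, hp]
      refine List.Nodup.map_on ?_ h5
      intro x hx y hy hxy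
      have := congrArg Fin.val hxy
      simpa only [Fin.ofNat, Nat.mod_eq_of_lt (h6' x hx), Nat.mod_eq_of_lt (h6' y hy)] using this
    · have : p.support.length = len + 1 := by rw [hp, List.length_map, h1']
      rw [Walk.length_support] at this
      rw [Walk.length_copy]
      omega
    · rw [Walk.support_copy, hp]
    · intro c d hcd
      rw [Walk.edges_copy]
      exact he c d hcd

end Pool.Agent.R4.EP
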