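import Mathlib
import Pool.Agent.R4.EP.Check
import Pool.Agent.R4.EP.Comp
import Pool.Agent.R4.EP.Data

/-!
The finite verifications for the core and for the leaf.
-/

set_option autoImplicit false

namespace Pool.Agent.R4.EP

open SimpleGraph

/-- Adjacency of the core. -/
def adjK (a b : ℕ) : Bool := Nat.testBit mK (32 * a + b)

/-- Adjacency of the leaf. -/
def adjZ (a b : ℕ) : Bool := Nat.testBit mZ (32 * a + b)

/-- The core. -/
def K : SimpleGraph (Fin 31) := gr 31 adjK

/-- The leaf. -/
def Z : SimpleGraph (Fin 14) := gr 14 adjZ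

/-- Check the entries of a list of codes against a condition depending on the position. -/
def chkL (f : ℕ → List ℕ → Bool) : ℕ → List ℕ → Bool
  | _, [] => true
  | i, c :: t => f i (dec 32 c) && chkL f (i + 1) t

lemma chkL_sound {f : ℕ → List ℕ → Bool} {i : ℕ} {l : List ℕ} (h : chkL f i l = true) :
    ∀ j, i ≤ j → j < i + l.length → ∃ m, f j m = true := by
  induction l generalizing i with
  | nil => intro j h1 h2; simp at h2; omega
  | cons c t ih =>
    simp only [chkL, Bool.and_eq_true] at h
    intro j h1 h2
    rcases Nat.lt_or_ge i j with h3 | h3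
    · exact ih h.2 j h3 (by simp at h2; omega)
    · have : j = i := by omega
      subst this
      exact ⟨_, h.1⟩

/-- A pair of disjoint paths `0 → 15`, `16 → 30` of total length `r`. -/
def isX (r : ℕ) (A B : List ℕ) : Bool :=
  isP adjK 31 0 15 (A.length - 1) A && isP adjK 31 16 30 (B.length - 1) B && nod (A ++ B) &&
    Nat.beq (A.length + B.length) (r + 2)

/-- Check the pairs. -/
def chkX : ℕ → List (ℕ × ℕ) → Bool
  | _, [] => true
  | i, c :: t => isX i (dec 32 c.1) (dec 32 c.2) && chkX (i + 1) t

lemma chkX_sound {i : ℕ} {l : List (ℕ × ℕ)} (h : chkX i l = true) :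
    ∀ j, i ≤ j → j < i + l.length → ∃ A B, isX j A B = true := by
  induction l generalizing i with
  | nil => intro j h1 h2; simp at h2; omega
  | cons c t ih =>
    simp only [chkX, Bool.and_eq_true] at h
    intro j h1 h2
    rcases Nat.lt_or_ge i j with h3 | h3
    · exact ih h.2 j h3 (by simp at h2; omega)
    · have : j = i := by omega
      subst this
      exact ⟨_, _, h.1⟩

/-- Check a record of the core. -/
def chkR (R : Rec) : Bool :=
  Nat.ble 10 R.r && Nat.ble R.t 30 && adjK R.a R.b && adjK R.b R.a && Nat.blt R.a 31 &&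
    Nat.blt R.b 31 && !Nat.beq R.a R.b &&
    Nat.beq R.cyc.length (R.t + 3) && chkL (fun i l => isP adjK 31 R.a R.b i l) 2 R.cyc &&
    Nat.beq R.pth.length (R.r + 8 - R.t) &&
    chkL (fun i l => isP adjK 31 0 30 i l && hasE R.a R.b l) R.t R.pth &&
    isX R.r (dec 32 R.cA) (dec 32 R.cB) &&
    (hasE R.a R.b (dec 32 R.cA) || hasE R.a R.b (dec 32 R.cB)) &&
    isX 29 (dec 32 R.hA) (dec 32 R.hB) &&
    (hasE R.a R.b (dec 32 R.hA) || hasE R.a R.b (dec 32 R.hB))

/-- Check a record of the leaf. -/
def chkRZ (R : RecZ) : Bool :=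
  Nat.ble R.t 13 && adjZ R.a R.b && adjZ R.b R.a && Nat.blt R.a 14 && Nat.blt R.b 14 &&
    !Nat.beq R.a R.b && Nat.beq R.cyc.length (R.t + 3) &&
    chkL (fun i l => isP adjZ 14 R.a R.b i l) 2 R.cyc &&
    Nat.beq R.pth.length (14 - R.t) &&
    chkL (fun i l => isP adjZ 14 0 13 i l && hasE R.a R.b l) R.t R.pth

theorem recK_ok : recK.all chkR = true := by decide +kernel

theorem recZ_ok : recZ.all chkRZ = true := by decide +kernel

theorem tA_ok : (chkL (fun i l => isP adjK 31 0 30 i l) 4 tA && Nat.beq tA.length 15) = true := by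
  decide +kernel

theorem tX_ok : (chkX 11 tX && Nat.beq tX.length 19) = true := by decide +kernel

theorem tO_ok : (chkL (fun i l => isP adjK 31 16 15 i l) 2 tO && Nat.beq tO.length 29) = true := by
  decide +kernel

theorem tZ_ok : (chkL (fun i l => isP adjZ 14 0 13 i l) 4 tZ && Nat.beq tZ.length 10) = true := by
  decide +kernel

/-- Every edge of the core has a record. -/
theorem covK : (List.range 31).all (fun a => (List.range 31).all (fun b =>
    !(adjK a b) || recK.any (fun R => (Nat.beq R.a a && Nat.beq R.b b) ||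
      (Nat.beq R.a b && Nat.beq R.b a)))) = true := by decide +kernel

/-- Every edge of the leaf has a record. -/
theorem covZ : (List.range 14).all (fun a => (List.range 14).all (fun b =>
    !(adjZ a b) || recZ.any (fun R => (Nat.beq R.a a && Nat.beq R.b b) ||
      (Nat.beq R.a b && Nat.beq R.b a)))) = true := by decide +kernel

theorem lenK : recK.length = 58 := by decide +kernel

theorem lenZ : recZ.length = 25 := by decide +kernel

end Pool.Agent.R4.EP
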