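import Mathlib
import Pool.Agent.R4.EP.Fin
import Pool.Agent.R4.EP.Build

/-!
The core and the leaf have the required properties.
-/

set_option autoImplicit false

namespace Pool.Agent.R4.EP

open SimpleGraph

lemma cyc_of_path {V : Type} {G : SimpleGraph V} {a b : V} (p : G.Walk a b) (hp : p.IsPath)
    (hl : 2 ≤ p.length) (h : G.Adj b a) : InCyc G s(a, b) (p.length + 1) := by
  refine ⟨b, Walk.cons h p, ?_, by simp, ?_⟩
  · rw [Walk.cons_isCycle_iff]
    refine ⟨hp, fun hmem => ?_⟩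
    have := hp.length_eq_one_of_mem_edges (by rwa [Sym2.eq_swap])
    omega
  · rw [Walk.edges_cons, Sym2.eq_swap]
    exact List.mem_cons_self

lemma adj_of {n : ℕ} [NeZero n] {adj : ℕ → ℕ → Bool} {a b : ℕ} (ha : a < n) (hb : b < n)
    (hab : a ≠ b) (h : adj a b = true) : (gr n adj).Adj (Fin.ofNat n a) (Fin.ofNat n b) := by
  rw [gr, SimpleGraph.fromRel_adj]
  refine ⟨?_, Or.inl ?_⟩
  · intro h
    have := congrArg Fin.val h
    simp only [Fin.ofNat, Nat.mod_eq_of_lt ha, Nat.mod_eq_of_lt hb] at this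
    exact hab this
  · simp only [Fin.ofNat, Nat.mod_eq_of_lt ha, Nat.mod_eq_of_lt hb]
    exact h

lemma cov_gen {n : ℕ} [NeZero n] {adj : ℕ → ℕ → Bool} {P : ℕ → ℕ → Prop}
    (h : ∀ a < n, ∀ b < n, adj a b = true → P a b ∨ P b a) (e : Sym2 (Fin n))
    (he : e ∈ (gr n adj).edgeSet) : ∃ a b, a < n ∧ b < n ∧ P a b ∧
      e = s(Fin.ofNat n a, Fin.ofNat n b) := by
  induction e with
  | h p q =>
  rw [SimpleGraph.mem_edgeSet, gr, SimpleGraph.fromRel_adj] at he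
  have h1 : ∀ z : Fin n, Fin.ofNat n z.val = z := by
    intro z
    ext
    simp [Fin.ofNat, Nat.mod_eq_of_lt z.isLt]
  have key : ∀ p q : Fin n, adj p.val q.val = true → ∃ a b, a < n ∧ b < n ∧ P a b ∧
      s(p, q) = s(Fin.ofNat n a, Fin.ofNat n b) := by
    intro p q hpq
    rcases h p.val p.isLt q.val q.isLt hpq with h2 | h2
    · exact ⟨p.val, q.val, p.isLt, q.isLt, h2, by rw [h1, h1]⟩
    · exact ⟨q.val, p.val, q.isLt, p.isLt, h2, by rw [h1, h1, Sym2.eq_swap]⟩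
  rcases he.2 with h2 | h2
  · exact key p q h2
  · obtain ⟨a, b, h3, h4, h5, h6⟩ := key q p h2
    exact ⟨a, b, h3, h4, h5, by rw [← h6, Sym2.eq_swap]⟩

lemma covK' : ∀ a < 31, ∀ b < 31, adjK a b = true →
    (∃ R ∈ recK, R.a = a ∧ R.b = b) ∨ (∃ R ∈ recK, R.a = b ∧ R.b = a) := by
  intro a ha b hb hab
  have h := covK
  rw [List.all_eq_true] at h
  have h1 := h a (List.mem_range.2 ha)
  rw [List.all_eq_true] at h1
  have h2 := h1 b (List.mem_range.2 hb)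
  rw [hab] at h2
  simp only [Bool.not_true, Bool.false_or, List.any_eq_true, Bool.or_eq_true,
    Bool.and_eq_true] at h2
  obtain ⟨R, hR, h3 | h3⟩ := h2
  · exact Or.inl ⟨R, hR, Nat.eq_of_beq_eq_true h3.1, Nat.eq_of_beq_eq_true h3.2⟩
  · exact Or.inr ⟨R, hR, Nat.eq_of_beq_eq_true h3.1, Nat.eq_of_beq_eq_true h3.2⟩

lemma covZ' : ∀ a < 14, ∀ b < 14, adjZ a b = true →
    (∃ R ∈ recZ, R.a = a ∧ R.b = b) ∨ (∃ R ∈ recZ, R.a = b ∧ R.b = a) := by
  intro a ha b hb hab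
  have h := covZ
  rw [List.all_eq_true] at h
  have h1 := h a (List.mem_range.2 ha)
  rw [List.all_eq_true] at h1
  have h2 := h1 b (List.mem_range.2 hb)
  rw [hab] at h2
  simp only [Bool.not_true, Bool.false_or, List.any_eq_true, Bool.or_eq_true,
    Bool.and_eq_true] at h2
  obtain ⟨R, hR, h3 | h3⟩ := h2
  · exact Or.inl ⟨R, hR, Nat.eq_of_beq_eq_true h3.1, Nat.eq_of_beq_eq_true h3.2⟩
  · exact Or.inr ⟨R, hR, Nat.eq_of_beq_eq_true h3.1, Nat.eq_of_beq_eq_true h3.2⟩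

lemma K_ncard : K.edgeSet.ncard ≤ 58 := by
  have h : K.edgeSet ⊆ ((recK.map (fun R => s(Fin.ofNat 31 R.a, Fin.ofNat 31 R.b))).toFinset :
      Set (Sym2 (Fin 31))) := by
    intro e he
    obtain ⟨a, b, -, -, ⟨R, hR, rfl, rfl⟩, rfl⟩ := cov_gen
      (P := fun a b => ∃ R ∈ recK, R.a = a ∧ R.b = b) covK' e he
    rw [Finset.mem_coe, List.mem_toFinset, List.mem_map]
    exact ⟨R, hR, rfl⟩
  refine (Set.ncard_le_ncard h (Finset.finite_toSet _)).trans ?_
  rw [Set.ncard_coe_finset]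
  refine (List.toFinset_card_le _).trans ?_
  rw [List.length_map, lenK]

lemma Z_ncard : Z.edgeSet.ncard ≤ 25 := by
  have h : Z.edgeSet ⊆ ((recZ.map (fun R => s(Fin.ofNat 14 R.a, Fin.ofNat 14 R.b))).toFinset :
      Set (Sym2 (Fin 14))) := by
    intro e he
    obtain ⟨a, b, -, -, ⟨R, hR, rfl, rfl⟩, rfl⟩ := cov_gen
      (P := fun a b => ∃ R ∈ recZ, R.a = a ∧ R.b = b) covZ' e he
    rw [Finset.mem_coe, List.mem_toFinset, List.mem_map]
    exact ⟨R, hR, rfl⟩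
  refine (Set.ncard_le_ncard h (Finset.finite_toSet _)).trans ?_
  rw [Set.ncard_coe_finset]
  refine (List.toFinset_card_le _).trans ?_
  rw [List.length_map, lenZ]

lemma hasPath_of {n : ℕ} [NeZero n] {adj : ℕ → ℕ → Bool} {a b i : ℕ} {l : List ℕ}
    (h : isP adj n a b i l = true) : HasPath (gr n adj) (Fin.ofNat n a) (Fin.ofNat n b) i := by
  obtain ⟨p, h1, h2, -, -⟩ := isP_sound h
  exact ⟨p, h1, h2⟩

lemma isX_sound {r : ℕ} {A B : List ℕ} (h : isX r A B = true) (S : Set (Sym2 (Fin 31)))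
    (hS : ∀ e ∈ S, ∃ c d, e = s(Fin.ofNat 31 c, Fin.ofNat 31 d) ∧
      (hasE c d A = true ∨ hasE c d B = true)) :
    Cross (gr 31 adjK) (Fin.ofNat 31 0) (Fin.ofNat 31 30) (Fin.ofNat 31 15) (Fin.ofNat 31 16) r S := by
  simp only [isX, Bool.and_eq_true] at h
  obtain ⟨⟨⟨h1, h2⟩, h3⟩, h4⟩ := h
  have h5 : A.length + B.length = r + 2 := Nat.eq_of_beq_eq_true h4
  rw [nod_iff] at h3
  have hA := h1
  have hB := h2
  simp only [isP, Bool.and_eq_true] at hA hB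
  have hA' : ∀ c ∈ A, c < 31 := by
    intro c hc
    have := (List.all_eq_true.1 hA.2) c hc
    simpa [Nat.blt_eq] using this
  have hB' : ∀ c ∈ B, c < 31 := by
    intro c hc
    have := (List.all_eq_true.1 hB.2) c hc
    simpa [Nat.blt_eq] using this
  have hAl : A.length = A.length - 1 + 1 := Nat.eq_of_beq_eq_true hA.1.1.1.1.1
  have hBl : B.length = B.length - 1 + 1 := Nat.eq_of_beq_eq_true hB.1.1.1.1.1
  obtain ⟨p, hp1, hp2, hp3, hp4⟩ := isP_sound h1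
  obtain ⟨q, hq1, hq2, hq3, hq4⟩ := isP_sound h2
  refine ⟨p, q, hp1, hq1, ?_, by omega, ?_⟩
  · intro z hz hz'
    rw [hp3, List.mem_map] at hz
    rw [hq3, List.mem_map] at hz'
    obtain ⟨a, ha, rfl⟩ := hz
    obtain ⟨b, hb, hab⟩ := hz'
    have := congrArg Fin.val hab
    simp only [Fin.ofNat, Nat.mod_eq_of_lt (hA' a ha), Nat.mod_eq_of_lt (hB' b hb)] at this
    subst this
    exact (List.disjoint_of_nodup_append h3) ha hb
  · intro e he
    obtain ⟨c, d, rfl, h | h⟩ := hS e he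
    · exact Or.inl (hp4 c d h)
    · exact Or.inr (hq4 c d h)

theorem K_ok : CoreOK K (Fin.ofNat 31 0) (Fin.ofNat 31 30) (Fin.ofNat 31 15) (Fin.ofNat 31 16) := by
  refine ⟨by decide, by decide, ?_, ?_, ?_, ?_⟩
  · intro L h1 h2
    have h := tA_ok
    rw [Bool.and_eq_true] at h
    have hl : tA.length = 15 := Nat.eq_of_beq_eq_true h.2
    obtain ⟨m, hm⟩ := chkL_sound h.1 L h1 (by omega)
    exact hasPath_of hm
  · intro r h1 h2
    have h := tX_ok
    rw [Bool.and_eq_true] at h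
    have hl : tX.length = 19 := Nat.eq_of_beq_eq_true h.2
    obtain ⟨A, B, hm⟩ := chkX_sound h.1 r h1 (by omega)
    exact isX_sound hm ∅ (by simp)
  · intro c h1 h2
    have h := tO_ok
    rw [Bool.and_eq_true] at h
    have hl : tO.length = 29 := Nat.eq_of_beq_eq_true h.2
    obtain ⟨m, hm⟩ := chkL_sound h.1 c h1 (by omega)
    exact hasPath_of hm
  · intro e he
    obtain ⟨a, b, ha, hb, ⟨R, hR, rfl, rfl⟩, rfl⟩ := cov_gen
      (P := fun a b => ∃ R ∈ recK, R.a = a ∧ R.b = b) covK' e he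
    have h := (List.all_eq_true.1 recK_ok) R hR
    simp only [chkR, Bool.and_eq_true] at h
    obtain ⟨⟨⟨⟨⟨⟨⟨⟨⟨⟨⟨⟨⟨⟨g1, g2⟩, g3⟩, g4⟩, g5⟩, g6⟩, g7⟩, g8⟩, g9⟩, g10⟩, g11⟩, g12⟩, g13⟩, g14⟩,
      g15⟩ := h
    have hne : R.a ≠ R.b := by
      intro hh
      rw [hh] at g7
      simp at g7
    have g8' : R.cyc.length = R.t + 3 := Nat.eq_of_beq_eq_true g8
    have g10' : R.pth.length = R.r + 8 - R.t := Nat.eq_of_beq_eq_true g10
    have g1' : 10 ≤ R.r := Nat.le_of_ble_eq_true g1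
    have g2' : R.t ≤ 30 := Nat.le_of_ble_eq_true g2
    refine ⟨R.t, R.r, g1', g2', ?_, ?_, ?_, ?_⟩
    · intro L h1 h2
      obtain ⟨m, hm⟩ := chkL_sound g9 (L - 1) (by omega) (by omega)
      obtain ⟨p, hp1, hp2, -, -⟩ := isP_sound hm
      have := cyc_of_path p hp1 (by omega) (adj_of hb ha hne.symm g4)
      have hL : p.length + 1 = L := by omega
      rw [hL] at this
      exact this
    · intro L h1 h2
      obtain ⟨m, hm⟩ := chkL_sound g11 L (by omega) (by omega)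
      rw [Bool.and_eq_true] at hm
      obtain ⟨p, hp1, hp2, -, hp4⟩ := isP_sound hm.1
      exact ⟨p, hp1, hp2, hp4 _ _ hm.2⟩
    · refine isX_sound g12 _ ?_
      rintro e rfl
      exact ⟨R.a, R.b, rfl, by simpa [Bool.or_eq_true] using g13⟩
    · refine isX_sound g14 _ ?_
      rintro e rfl
      exact ⟨R.a, R.b, rfl, by simpa [Bool.or_eq_true] using g15⟩

theorem Z_ok : Good Z (Fin.ofNat 14 0) (Fin.ofNat 14 13) 13 := by
  refine ⟨by decide, le_rfl, ?_, ?_⟩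
  · intro L h1 h2
    have h := tZ_ok
    rw [Bool.and_eq_true] at h
    have hl : tZ.length = 10 := Nat.eq_of_beq_eq_true h.2
    obtain ⟨m, hm⟩ := chkL_sound h.1 L h1 (by omega)
    exact hasPath_of hm
  · intro e he
    obtain ⟨a, b, ha, hb, ⟨R, hR, rfl, rfl⟩, rfl⟩ := cov_gen
      (P := fun a b => ∃ R ∈ recZ, R.a = a ∧ R.b = b) covZ' e he
    have h := (List.all_eq_true.1 recZ_ok) R hR
    simp only [chkRZ, Bool.and_eq_true] at h
    obtain ⟨⟨⟨⟨⟨⟨⟨⟨⟨g2, g3⟩, g4⟩, g5⟩, g6⟩, g7⟩, g8⟩, g9⟩, g10⟩, g11⟩ := h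
    have hne : R.a ≠ R.b := by
      intro hh
      rw [hh] at g7
      simp at g7
    have g8' : R.cyc.length = R.t + 3 := Nat.eq_of_beq_eq_true g8
    have g10' : R.pth.length = 14 - R.t := Nat.eq_of_beq_eq_true g10
    have g2' : R.t ≤ 13 := Nat.le_of_ble_eq_true g2
    refine ⟨R.t, g2', ?_, ?_⟩
    · intro L h1 h2
      obtain ⟨m, hm⟩ := chkL_sound g9 (L - 1) (by omega) (by omega)
      obtain ⟨p, hp1, hp2, -, -⟩ := isP_sound hm
      have := cyc_of_path p hp1 (by omega) (adj_of hb ha hne.symm g4)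
      have hL : p.length + 1 = L := by omega
      rw [hL] at this
      exact this
    · intro L h1 h2
      obtain ⟨m, hm⟩ := chkL_sound g11 L (by omega) (by omega)
      rw [Bool.and_eq_true] at hm
      obtain ⟨p, hp1, hp2, -, hp4⟩ := isP_sound hm.1
      exact ⟨p, hp1, hp2, hp4 _ _ hm.2⟩

theorem Ex_zero : Ex 13 25 :=
  ⟨Fin 14, inferInstance, Z, _, _, Z_ok, by simp, Z_ncard⟩

theorem Ex_all (j : ℕ) : Ex (42 * 2 ^ j - 29) (83 * 2 ^ j - 58) := by
  induction j with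
  | zero => exact Ex_zero
  | succ j ih =>
    have h := Ex.step K_ok (by simp) K_ncard ih
    have h1 : 1 ≤ 2 ^ j := Nat.one_le_two_pow
    have h2 : 2 * (42 * 2 ^ j - 29) + 29 = 42 * 2 ^ (j + 1) - 29 := by
      rw [pow_succ]
      omega
    have h3 : 2 * (83 * 2 ^ j - 58) + 58 = 83 * 2 ^ (j + 1) - 58 := by
      rw [pow_succ]
      omega
    rw [h2, h3] at h
    exact h

/-- For every `j` there is an edge-pancyclic graph on `n = 84 * 2 ^ j - 58` vertices with at least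
one edge and at most `2 n - 2 ^ (j + 1)` edges. -/
theorem main (j : ℕ) : ∃ G : SimpleGraph (Fin (84 * 2 ^ j - 58)),
    G.edgeSet.Nonempty ∧ (∀ e ∈ G.edgeSet, ∀ L, 3 ≤ L → L ≤ 84 * 2 ^ j - 58 →
      ∃ (z : Fin (84 * 2 ^ j - 58)) (c : G.Walk z z), c.IsCycle ∧ c.length = L ∧ e ∈ c.edges) ∧
    G.edgeSet.ncard + 2 ^ (j + 1) ≤ 2 * (84 * 2 ^ j - 58) := by
  have h1 : 1 ≤ 2 ^ j := Nat.one_le_two_pow
  have h2 : 2 * (42 * 2 ^ j - 29) = 84 * 2 ^ j - 58 := by omega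
  obtain ⟨G, h3, h4, h5⟩ := (Ex_all j).final
  rw [← h2]
  refine ⟨G, h3, h4, ?_⟩
  rw [pow_succ]
  omega

end Pool.Agent.R4.EP
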